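import Pool.Agent.H37.CNH.Stmts

set_option autoImplicit false

namespace Pool.CND

theorem abc_thm : S_ABC := by
  intro G _ _ A hcomm g hg hg1
  let _ : CommGroup A := { (inferInstance : Group A) with
    mul_comm := fun a b => Subtype.ext (hcomm a a.2 b b.2) }
  have hne : (⟨g, hg⟩ : A) ≠ 1 := by
    intro h
    exact hg1 (congrArg Subtype.val h)
  obtain ⟨φ, hφ⟩ := CommGroup.exists_apply_ne_one_of_hasEnoughRootsOfUnity A ℂ hne
  have hfin : Finite φ.range := Finite.of_surjective φ.rangeRestrict φ.rangeRestrict_surjective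
  have hcyc : IsCyclic φ.range := inferInstance
  obtain ⟨⟨u, h, hu⟩, hgen⟩ := hcyc.exists_generator
  refine ⟨φ.ker.map A.subtype, ?_, ?_, (h : G), h.2, ?_⟩
  · rintro x ⟨y, -, rfl⟩
    exact y.2
  · rintro ⟨y, hy, hyg⟩
    apply hφ
    have : y = (⟨g, hg⟩ : A) := Subtype.ext hyg
    rw [← this]
    exact hy
  · intro a ha
    have h1 : (⟨φ ⟨a, ha⟩, ⟨_, rfl⟩⟩ : φ.range) ∈ Subgroup.zpowers (⟨u, h, hu⟩ : φ.range) := hgen _
    rw [mem_zpowers_iff_mem_range_orderOf] at h1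
    obtain ⟨j, -, hj⟩ := Finset.mem_image.1 h1
    refine ⟨j, (⟨a, ha⟩ : A) * (h ^ j)⁻¹, ?_, ?_⟩
    · have h2 : u ^ j = φ ⟨a, ha⟩ := congrArg Subtype.val hj
      show φ ((⟨a, ha⟩ : A) * (h ^ j)⁻¹) = 1
      rw [map_mul, map_inv, map_pow, hu, h2, mul_inv_cancel]
    · simp

end Pool.CND
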